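import Mathlib

namespace Pool.Agent.Results.MP_6afee3_an.NotFG

open Filter Topology ZeroAtInfty

/-- For a countable discrete group, `M(G) = ℓ¹(G)`: a measure is its summable family of point
masses. -/
def M (G : Type) : Type := {μ : G → ℂ // Summable fun x => ‖μ x‖}

/-- Convolution. -/
noncomputable def conv {G : Type} [Group G] (μ ν : G → ℂ) : G → ℂ :=
  fun y => ∑' x, μ x * ν (x⁻¹ * y)

/-- The weak* topology `σ(M(G), C₀(G))`. -/
@[reducible] noncomputable def wstar (G : Type) [TopologicalSpace G] : TopologicalSpace (M G) :=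
  TopologicalSpace.induced (fun (μ : M G) (φ : C₀(G, ℂ)) => ∑' x, φ x * μ.1 x) inferInstance

/-- Left ideal of `M(G)`. -/
def IsLeftIdeal {G : Type} [Group G] (J : Set (M G)) : Prop :=
  (∃ ν ∈ J, ν.1 = 0) ∧ (∀ μ ∈ J, ∀ ν ∈ J, ∀ ρ : M G, ρ.1 = μ.1 + ν.1 → ρ ∈ J) ∧
    ∀ μ : M G, ∀ ν ∈ J, ∀ ρ : M G, ρ.1 = conv μ.1 ν.1 → ρ ∈ J

/-- Algebraically finitely generated. -/
def FG {G : Type} [Group G] (J : Set (M G)) : Prop :=
  ∃ (n : ℕ) (μ : Fin n → M G), (∀ i, μ i ∈ J) ∧
    ∀ ν ∈ J, ∃ a : Fin n → M G, ν.1 = ∑ i, conv (a i).1 (μ i).1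

theorem fub {G : Type} [Group G] (μ ν : M G) (φ : G → ℂ) (h : ∀ x, ‖φ x‖ ≤ 1) :
    HasSum (fun y => φ y * conv μ.1 ν.1 y) (∑' z, μ.1 z * ∑' w, φ (z * w) * ν.1 w) := by
  have s1 : Summable fun p : G × G => μ.1 p.1 * (φ (p.1 * p.2) * ν.1 p.2) := by
    refine Summable.of_norm_bounded (μ.2.mul_of_nonneg ν.2 (fun _ => norm_nonneg _)
      (fun _ => norm_nonneg _)) fun p => ?_
    rw [norm_mul, norm_mul]
    gcongr
    exact mul_le_of_le_one_left (norm_nonneg _) (h _)
  let e : G × G ≃ G × G := ⟨fun p => (p.2, p.2⁻¹ * p.1), fun p => (p.1 * p.2, p.1),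
    fun p => by simp, fun p => by simp⟩
  have s2 := (e.hasSum_iff.2 s1.hasSum)
  have s3 := s2.prod_fiberwise fun y => (s2.summable.prod_factor y).hasSum
  rw [s1.tsum_prod] at s3
  simp only [tsum_mul_left] at s3
  have e2 : (fun y => φ y * conv μ.1 ν.1 y) = fun y => ∑' z,
      ((fun p : G × G => μ.1 p.1 * (φ (p.1 * p.2) * ν.1 p.2)) ∘ e) (y, z) := by
    ext y
    rw [conv, ← tsum_mul_left]
    refine tsum_congr fun z => ?_
    simp [e]; ring
  rw [e2]; exact s3

def B : Type := ℕ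

instance : CommGroup B where
  mul a b := Nat.xor a b
  one := (0 : ℕ)
  inv a := a
  mul_assoc := Nat.xor_assoc
  one_mul := Nat.zero_xor
  mul_one := Nat.xor_zero
  inv_mul_cancel := Nat.xor_self
  mul_comm := Nat.xor_comm

instance : TopologicalSpace B := ⊥
instance : DiscreteTopology B := ⟨rfl⟩
instance : Countable B := inferInstanceAs (Countable ℕ)

def nat (x : B) : ℕ := x
def g (k : ℕ) : B := (2 ^ k : ℕ)
theorem nat_mul (x y : B) : nat (x * y) = nat x ^^^ nat y := rfl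
theorem gg (x y : B) : x * (x * y) = y := inv_mul_cancel_left x y

noncomputable def sg (k : ℕ) (x : B) : ℂ := if (nat x).testBit k then -1 else 1
noncomputable def E (l : ℕ) (x : B) : ℂ := if nat x < 2 ^ (l + 1) then sg l x else 0

theorem sg_mul (k : ℕ) (x y : B) : sg k (x * y) = sg k x * sg k y := by
  simp only [sg, nat_mul, Nat.testBit_xor]
  cases (nat x).testBit k <;> cases (nat y).testBit k <;> simp
theorem sg_norm (k : ℕ) (x : B) : ‖sg k x‖ = 1 := by unfold sg; split_ifs <;> simp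
theorem E_norm (k : ℕ) (x : B) : ‖E k x‖ ≤ 1 := by unfold E; split_ifs <;> simp [sg_norm]
theorem sg_g (k l : ℕ) : sg k (g l) = if l = k then -1 else 1 := by
  simp [sg, g, nat, Nat.testBit_two_pow]
theorem lt_iff {k l : ℕ} (h : k ≤ l) (x : B) :
    nat (g k * x) < 2 ^ (l + 1) ↔ nat x < 2 ^ (l + 1) := by
  have h1 : ∀ x : B, nat x < 2 ^ (l + 1) → nat (g k * x) < 2 ^ (l + 1) := fun x hx =>
    Nat.xor_lt_two_pow (Nat.pow_lt_pow_right one_lt_two (by omega)) hx
  exact ⟨fun hx => by simpa [gg] using h1 _ hx, h1 x⟩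
theorem E_g {k l : ℕ} (h : k ≤ l) (x : B) : E l (g k * x) = sg l (g k) * E l x := by
  simp only [E, lt_iff h, sg_mul]; split_ifs <;> simp
theorem orth (a b : B → ℂ) (c : B) (h : ∀ x, a (c * x) * b (c * x) = -(a x * b x)) :
    ∑' x, a x * b x = 0 := by
  have := (Equiv.mulLeft c).tsum_eq (fun x => a x * b x)
  simp only [Equiv.coe_mulLeft, h, tsum_neg] at this
  linear_combination (-1 / 2 : ℂ) * this
theorem orth1 {k l : ℕ} (h : k ≠ l) (y : B) : ∑' x, E l (y * x) * E k x = 0 := by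
  rcases lt_or_gt_of_ne h with h' | h'
  · exact orth _ _ (g k) fun x => by
      rw [mul_left_comm, E_g h'.le, E_g le_rfl, sg_g, sg_g]; simp [h]
  · exact orth (fun x => E l (y * x)) _ (g l) fun x => by
      rw [mul_left_comm, E_g h'.le, E_g le_rfl, sg_g, sg_g]; simp [h.symm]
theorem orth2 {k l : ℕ} (h : k ≠ l) : ∑' x, sg l x * E k x = 0 := by
  rcases lt_or_gt_of_ne h with h' | h'
  · exact orth _ _ (g k) fun x => by rw [sg_mul, E_g le_rfl, sg_g, sg_g]; simp [h]
  · exact orth _ _ (g l) fun x => by rw [sg_mul, E_g h'.le, sg_g, sg_g]; simp [h.symm]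
def R (l : ℕ) : Finset B := Finset.range (2 ^ (l + 1))
theorem memR (l : ℕ) (x : B) : x ∈ R l ↔ nat x < 2 ^ (l + 1) := Finset.mem_range
theorem cardR (l : ℕ) : (R l).card = 2 ^ (l + 1) := Finset.card_range _
theorem hE (l : ℕ) : HasSum (fun x => ‖E l x‖) (2 ^ (l + 1)) := by
  have := hasSum_sum_of_ne_finset_zero (L := SummationFilter.unconditional B) (s := R l)
    (f := fun x => ‖E l x‖) fun x hx => by simp [E, mt (memR l x).2 hx]
  rwa [Finset.sum_congr rfl (g := fun _ => 1) fun x hx => by simp [E, (memR l x).1 hx, sg_norm],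
    Finset.sum_const, cardR, nsmul_eq_mul, mul_one, Nat.cast_pow, Nat.cast_ofNat] at this
theorem diag (l : ℕ) : ∑' x, sg l x * E l x = 2 ^ (l + 1) := by
  have : ∀ x, sg l x * E l x = ((‖E l x‖ : ℝ) : ℂ) := fun x => by
    unfold E sg; split_ifs <;> simp
  simp only [this, ← Complex.ofReal_tsum, (hE l).tsum_eq]; simp

noncomputable def hat (ν : B → ℂ) (k : ℕ) : ℂ := ∑' x, sg k x * ν x

theorem hat_conv (μ ν : M B) (k : ℕ) :
    HasSum (fun x => sg k x * conv μ.1 ν.1 x) (hat μ.1 k * hat ν.1 k) := by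
  have := fub μ ν (sg k) fun x => (sg_norm k x).le
  have e : ∑' z, μ.1 z * ∑' w, sg k (z * w) * ν.1 w = hat μ.1 k * hat ν.1 k := by
    rw [hat, ← tsum_mul_right]
    refine tsum_congr fun z => ?_
    simp only [sg_mul, mul_assoc, tsum_mul_left, hat]; ring
  rwa [e] at this

def J : Set (M B) := {ν | ∀ l, Odd l → ∀ y, ∑' w, E l (y * w) * ν.1 w = 0}

theorem sm (ν : M B) (φ : B → ℂ) (h : ∀ x, ‖φ x‖ ≤ 1) : Summable fun x => φ x * ν.1 x :=
  Summable.of_norm_bounded ν.2 fun x => by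
    rw [norm_mul]; exact mul_le_of_le_one_left (norm_nonneg _) (h x)

theorem hat_lim (ν : M B) (hν : ν ∈ J) : Tendsto (hat ν.1) atTop (𝓝 0) := by
  have h1 : Tendsto (hat ν.1) atTop (𝓝 (∑' x, ν.1 x)) := by
    refine tendsto_tsum_of_dominated_convergence ν.2 (fun x => ?_)
      (Eventually.of_forall fun k x => by rw [norm_mul, sg_norm, one_mul])
    refine tendsto_const_nhds.congr' ((eventually_ge_atTop (nat x)).mono fun k hk => ?_)
    simp [sg, Nat.testBit_lt_two_pow (hk.trans_lt Nat.lt_two_pow_self)]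
  have h2 : ∀ l, hat ν.1 (2 * l + 1) = 0 := fun l => by
    have := hat_conv ν ⟨E (2 * l + 1), (hE _).summable⟩ (2 * l + 1)
    have e : conv ν.1 (E (2 * l + 1)) = fun _ => 0 := funext fun y => by
      rw [← hν _ ⟨l, rfl⟩ y, conv]
      exact tsum_congr fun x => by rw [mul_comm, mul_comm y]; rfl
    simp only [e, mul_zero] at this
    have h3 := this.unique hasSum_zero
    rw [hat.eq_1 (E _), diag] at h3
    simpa using h3
  have h3 := h1.comp (tendsto_atTop_mono (fun l => (by omega : l ≤ 2 * l + 1)) tendsto_id)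
  rw [show hat ν.1 ∘ (fun l => 2 * l + 1) = fun _ => 0 from funext h2] at h3
  rwa [tendsto_nhds_unique h3 tendsto_const_nhds] at h1

theorem result : ∃ (G : Type) (_ : Group G) (_ : TopologicalSpace G), DiscreteTopology G ∧
    Countable G ∧ ∃ J : Set (M G), IsLeftIdeal J ∧ @IsClosed _ (wstar G) J ∧ ¬ FG J := by
  refine ⟨B, inferInstance, inferInstance, inferInstance, inferInstance, J,
    ⟨⟨⟨0, by simpa using summable_zero⟩, fun l _ y => by simp, rfl⟩, ?_, ?_⟩, ?_, ?_⟩
  · intro μ hμ ν hν ρ h l hl y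
    simp only [h, Pi.add_apply, mul_add]
    rw [(sm μ _ fun x => E_norm l _).tsum_add (sm ν _ fun x => E_norm l _), hμ l hl, hν l hl,
      add_zero]
  · intro μ ν hν ρ h l hl y
    rw [h, (fub μ ν (fun w => E l (y * w)) fun x => E_norm l _).tsum_eq]
    simp only [← mul_assoc, hν l hl, mul_zero, tsum_zero]
  · letI := wstar B
    have hc : Continuous fun (μ : M B) (φ : C₀(B, ℂ)) => ∑' x, φ x * μ.1 x :=
      continuous_induced_dom
    simp only [J, Set.ofPred_forall]
    refine isClosed_iInter fun l => isClosed_iInter fun _ => isClosed_iInter fun y => ?_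
    let φ : C₀(B, ℂ) := ⟨⟨fun w => E l (y * w), continuous_of_discreteTopology⟩, by
      rw [cocompact_eq_cofinite]
      refine tendsto_const_nhds.congr' (((R l).finite_toSet.image (y * ·)).subset fun w hw => ?_)
      refine ⟨y * w, ?_, gg y w⟩
      by_contra h
      exact hw (by simp [E, mt (memR l _).2 h])⟩
    exact isClosed_eq ((continuous_apply φ).comp hc) continuous_const
  · rintro ⟨n, μ, hμ, h⟩
    have h1 : Tendsto (fun k => ∑ i, ‖hat (μ i).1 (2 * k)‖) atTop (𝓝 0) := by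
      simpa using tendsto_finsetSum Finset.univ fun i _ => ((hat_lim _ (hμ i)).comp
        (tendsto_atTop_mono (fun l => (by omega : l ≤ 2 * l)) tendsto_id)).norm
    obtain ⟨φ, hφ, h2⟩ := extraction_forall_of_eventually
      (P := fun j k => ∑ i, ‖hat (μ i).1 (2 * k)‖ < (1 / 2 : ℝ) ^ j * (1 / 2) ^ j)
      fun j => h1.eventually (gt_mem_nhds (by positivity))
    set F : ℕ → B → ℂ := fun j x => (1 / 2) ^ j / 2 ^ (2 * φ j + 1) * E (2 * φ j) x with hF
    have s0 : ∀ j, HasSum (fun x => ‖F j x‖) ((1 / 2) ^ j) := fun j => by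
      have := (hE (2 * φ j)).mul_left ((1 / 2) ^ j / 2 ^ (2 * φ j + 1))
      rw [div_mul_cancel₀ _ (by positivity)] at this
      simpa [hF] using this
    have s1 : Summable fun p : ℕ × B => ‖F p.1 p.2‖ :=
      (summable_prod_of_nonneg fun _ => norm_nonneg _).2 ⟨fun j => (s0 j).summable, by
        simp only [(s0 _).tsum_eq]; exact summable_geometric_two⟩
    let ν : M B := ⟨fun x => ∑' j, F j x, Summable.of_nonneg_of_le (fun _ => norm_nonneg _)
      (fun x => norm_tsum_le_tsum_norm (s1.prod_symm.prod_factor x)) s1.prod_symm.prod⟩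
    have pr : ∀ ψ : B → ℂ, (∀ x, ‖ψ x‖ ≤ 1) → ∑' x, ψ x * ν.1 x =
        ∑' j, (1 / 2) ^ j / 2 ^ (2 * φ j + 1) * ∑' x, ψ x * E (2 * φ j) x := fun ψ hψ => by
      have s2 : Summable (Function.uncurry fun j x => ψ x * F j x) :=
        Summable.of_norm_bounded s1 fun p => by
          show ‖ψ p.2 * F p.1 p.2‖ ≤ _
          rw [norm_mul]; exact mul_le_of_le_one_left (norm_nonneg _) (hψ _)
      simp only [ν, ← tsum_mul_left]
      rw [s2.tsum_comm]
      exact tsum_congr fun j => tsum_congr fun x => by simp only [hF]; ring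
    obtain ⟨a, ha⟩ := h ν fun l hl y => by
      rw [pr _ fun x => E_norm l _]
      have : ∀ j, 2 * φ j ≠ l := fun j hj => by obtain ⟨m, rfl⟩ := hl; omega
      simp [orth1 (this _)]
    have h3 : ∀ j, hat ν.1 (2 * φ j) = (1 / 2) ^ j := fun j => by
      rw [hat, pr _ fun x => (sg_norm _ x).le, tsum_eq_single j, diag,
        div_mul_cancel₀ _ (pow_ne_zero _ two_ne_zero)]
      intro i hi
      rw [orth2 fun h => hi (hφ.injective (by omega)), mul_zero]
    obtain ⟨j, hj⟩ := exists_pow_lt_of_lt_one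
      (show 0 < 1 / (∑ i, ∑' x, ‖(a i).1 x‖ + 1) by positivity) (show (1 / 2 : ℝ) < 1 by norm_num)
    set C := ∑ i, ∑' x, ‖(a i).1 x‖ with hC
    have h4 : hat ν.1 (2 * φ j) = ∑ i, hat (a i).1 (2 * φ j) * hat (μ i).1 (2 * φ j) := by
      rw [hat, ha]
      simp only [Finset.sum_apply, Finset.mul_sum]
      exact (hasSum_sum fun i _ => hat_conv (a i) (μ i) _).tsum_eq
    have h5 : ‖hat ν.1 (2 * φ j)‖ ≤ C * ∑ i, ‖hat (μ i).1 (2 * φ j)‖ := by
      rw [h4, Finset.mul_sum]
      refine (norm_sum_le _ _).trans (Finset.sum_le_sum fun i _ => ?_)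
      rw [norm_mul]
      gcongr
      refine le_trans ?_ (Finset.single_le_sum (f := fun i => ∑' x, ‖(a i).1 x‖)
        (fun i _ => by positivity) (Finset.mem_univ i))
      exact tsum_of_norm_bounded (a i).2.hasSum fun x => by rw [norm_mul, sg_norm, one_mul]
    rw [h3, norm_pow, show ‖(1 / 2 : ℂ)‖ = 1 / 2 by simp] at h5
    have h6 := h2 j
    have C0 : 0 ≤ C := by positivity
    have t0 : (0 : ℝ) < (1 / 2) ^ j := by positivity
    rw [lt_div_iff₀ (by positivity)] at hj
    have h7 := h5.trans (mul_le_mul_of_nonneg_left h6.le C0)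
    nlinarith

end Pool.Agent.Results.MP_6afee3_an.NotFG
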